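import Pool.Agent.H474.RZ.Stm
import Pool.Graph.R_seed8.H401R2.Stir

/-!
# Project RZ (helper474), task GAM: the Gamma factor on two vertical lines (helper161)
-/

set_option autoImplicit false

open Complex MeasureTheory Filter Topology
open Pool.Agent.H474.RZ

namespace Pool.Agent.H161.RZ.GAM

/-- upper half of the line, away from the real axis -/
lemma gam_up {σ y : ℝ} (hσ : 1 / 2 ≤ σ) (hσ1 : σ ≤ 1) (hy : 1 ≤ y) :
    ‖Gamma (σ + y * I)‖ ≤ (√(2 * Real.pi) * (1 + Real.pi / 8)) *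
      ((1 + y) ^ (σ - 1 / 2) * Real.exp (-(Real.pi / 2 * y))) := by
  obtain ⟨z, hz⟩ : ∃ z : ℂ, z = σ + y * I := ⟨_, rfl⟩
  have hre : z.re = σ := by rw [hz]; simp
  have him : z.im = y := by rw [hz]; simp
  have hy0 : 0 < y := by linarith
  have hσ0 : 0 < σ := by linarith
  have hs := Pool.Agent.H401R2.stirling (z := z) (by rw [hre]; exact hσ0) (by rw [him]; exact hy)
  have hsq : (0 : ℝ) < √(2 * Real.pi) := by positivity
  have h1 : ‖Pool.Agent.H401R2.sA z‖ ≤ √(2 * Real.pi) * (1 + Real.pi / 8) := by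
    have h2 : ‖Pool.Agent.H401R2.sA z / ((√(2 * Real.pi) : ℝ) : ℂ)‖ ≤ 1 + Real.pi / 8 := by
      have h3 := norm_add_le (Pool.Agent.H401R2.sA z / ((√(2 * Real.pi) : ℝ) : ℂ) - 1) 1
      rw [sub_add_cancel, norm_one] at h3
      have h4 : Real.pi / (8 * z.im) ≤ Real.pi / 8 := by
        apply div_le_div_of_nonneg_left Real.pi_pos.le (by norm_num)
        rw [him]
        linarith
      linarith
    rw [norm_div, Complex.norm_real, Real.norm_eq_abs, abs_of_pos hsq, div_le_iff₀ hsq] at h2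
    linarith
  have h2 : Gamma z = Pool.Agent.H401R2.sA z * cexp ((z - 1 / 2) * log z - z) := by
    unfold Pool.Agent.H401R2.sA
    rw [mul_assoc, ← Complex.exp_add, neg_add_cancel, Complex.exp_zero, mul_one]
  have hz0 : z ≠ 0 := by
    intro h
    rw [h] at hre
    simp at hre
    linarith
  have h3 : ‖cexp ((z - 1 / 2) * log z - z)‖ ≤ (1 + y) ^ (σ - 1 / 2) * Real.exp (-(Real.pi / 2 * y)) := by
    rw [Complex.norm_exp]
    have h4 : ((z - 1 / 2) * log z - z).re = Real.log ‖z‖ * (σ - 1 / 2) - (y * arg z + σ) := by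
      rw [sub_re, mul_re, sub_re, sub_im, log_re, log_im, hre, him]
      have h5 : ((1 : ℂ) / 2).re = 1 / 2 := by norm_num
      have h6 : ((1 : ℂ) / 2).im = 0 := by norm_num
      rw [h5, h6]
      ring
    rw [h4, sub_eq_add_neg, Real.exp_add, ← Real.rpow_def_of_pos (norm_pos_iff.2 hz0)]
    have h5 : ‖z‖ ≤ 1 + y := by
      refine (Complex.norm_le_abs_re_add_abs_im z).trans ?_
      rw [hre, him, abs_of_pos hσ0, abs_of_pos hy0]
      linarith
    have h6 : ‖z‖ ^ (σ - 1 / 2) ≤ (1 + y) ^ (σ - 1 / 2) :=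
      Real.rpow_le_rpow (norm_nonneg _) h5 (by linarith)
    have h7 : Real.pi / 2 * y ≤ y * arg z + σ := by
      have ha1 : arg z < Real.pi / 2 :=
        (abs_lt.1 (Complex.abs_arg_lt_pi_div_two_iff.2 (Or.inl (by rw [hre]; exact hσ0)))).2
      have ha2 : 0 ≤ arg z := Complex.arg_nonneg_iff.2 (by rw [him]; exact hy0.le)
      have hnz : 0 < ‖z‖ := norm_pos_iff.2 hz0
      have ha3 : 0 < arg z := by
        rcases ha2.lt_or_eq with h | h
        · exact h
        · exfalso
          have h8 := Complex.sin_arg z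
          rw [← h, Real.sin_zero, him] at h8
          have : 0 < y / ‖z‖ := by positivity
          linarith
      have h8 : Real.pi / 2 - arg z ≤ Real.tan (Real.pi / 2 - arg z) :=
        (Real.lt_tan (by linarith) (by linarith)).le
      have h9 : Real.tan (Real.pi / 2 - arg z) = σ / y := by
        rw [Real.tan_eq_sin_div_cos, Real.sin_pi_div_two_sub, Real.cos_pi_div_two_sub,
          Complex.cos_arg hz0, Complex.sin_arg, hre, him]
        field_simp
      rw [h9, le_div_iff₀ hy0] at h8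
      linarith
    exact mul_le_mul h6 (Real.exp_le_exp.2 (by linarith)) (Real.exp_pos _).le (by positivity)
  rw [← hz, h2, norm_mul]
  exact mul_le_mul h1 h3 (norm_nonneg _) (by positivity)

/-- symmetry -/
lemma gam_conj (σ y : ℝ) : ‖Gamma (σ + y * I)‖ = ‖Gamma (σ + |y| * I)‖ := by
  rcases le_total 0 y with h | h
  · rw [abs_of_nonneg h]
  · rw [abs_of_nonpos h]
    have h1 : (σ : ℂ) + ((-y : ℝ) : ℂ) * I = (starRingEnd ℂ) (σ + y * I) := by
      rw [map_add, map_mul, conj_ofReal, conj_ofReal, conj_I]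
      push_cast
      ring
    rw [h1, Complex.Gamma_conj, Complex.norm_conj]

/-- the bound on a line -/
lemma gam_line {σ : ℝ} (hσ : 1 / 2 ≤ σ) (hσ1 : σ ≤ 1) : ∃ C : ℝ, 0 < C ∧ ∀ y : ℝ,
    ‖Gamma (σ + y * I)‖ ≤ C * ((1 + |y|) ^ (σ - 1 / 2) * Real.exp (-(Real.pi / 2 * |y|))) := by
  have hσ0 : 0 < σ := by linarith
  have hc : ContinuousOn (fun y : ℝ => ‖Gamma (σ + y * I)‖) (Set.Icc 0 1) := by
    intro y _
    apply ContinuousAt.continuousWithinAt
    apply ContinuousAt.norm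
    have h1 : ContinuousAt Gamma (σ + y * I : ℂ) := by
      apply ContinuousAt.congr (f := Gamma) ?_ (Filter.EventuallyEq.refl _ _)
      apply DifferentiableAt.continuousAt (𝕜 := ℂ)
      apply Complex.differentiableAt_Gamma
      intro m h
      have := congrArg Complex.re h
      simp at this
      have hm : (0 : ℝ) ≤ m := Nat.cast_nonneg _
      linarith
    exact ContinuousAt.comp (f := fun y : ℝ => (σ + y * I : ℂ)) (g := Gamma) h1 (by fun_prop)
  obtain ⟨y₀, -, hy₀⟩ := isCompact_Icc.exists_isMaxOn (Set.nonempty_Icc.2 zero_le_one) hc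
  obtain ⟨M, hM⟩ : ∃ M : ℝ, M = ‖Gamma (σ + y₀ * I)‖ := ⟨_, rfl⟩
  have hM0 : 0 ≤ M := by rw [hM]; exact norm_nonneg _
  refine ⟨√(2 * Real.pi) * (1 + Real.pi / 8) + M * Real.exp (Real.pi / 2), by positivity,
    fun y => ?_⟩
  rw [gam_conj]
  have hpos : 0 ≤ (1 + |y|) ^ (σ - 1 / 2) * Real.exp (-(Real.pi / 2 * |y|)) := by positivity
  rcases le_total 1 |y| with h | h
  · refine (gam_up hσ hσ1 h).trans (mul_le_mul_of_nonneg_right ?_ hpos)
    have : 0 ≤ M * Real.exp (Real.pi / 2) := by positivity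
    linarith
  · have h1 : ‖Gamma (σ + |y| * I)‖ ≤ M := by
      rw [hM]
      exact hy₀ (Set.mem_Icc.2 ⟨abs_nonneg y, h⟩)
    have h2 : 1 ≤ (1 + |y|) ^ (σ - 1 / 2) :=
      Real.one_le_rpow (by linarith [abs_nonneg y]) (by linarith)
    have h3 : 1 ≤ Real.exp (Real.pi / 2) * Real.exp (-(Real.pi / 2 * |y|)) := by
      rw [← Real.exp_add]
      apply Real.one_le_exp
      have := mul_le_mul_of_nonneg_left h (by positivity : 0 ≤ Real.pi / 2)
      linarith
    have h4 : 1 ≤ Real.exp (Real.pi / 2) * ((1 + |y|) ^ (σ - 1 / 2) *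
        Real.exp (-(Real.pi / 2 * |y|))) := by
      have := mul_le_mul h2 h3 (by norm_num) (by positivity)
      calc (1 : ℝ) = 1 * 1 := by ring
        _ ≤ _ := this
        _ = _ := by ring
    have h5 := mul_le_mul_of_nonneg_left h4 hM0
    have h6 : 0 ≤ √(2 * Real.pi) * (1 + Real.pi / 8) * ((1 + |y|) ^ (σ - 1 / 2) *
      Real.exp (-(Real.pi / 2 * |y|))) := by positivity
    calc _ ≤ M := h1
      _ = M * 1 := by ring
      _ ≤ _ := h5
      _ ≤ _ := by linarith

theorem t_GAM : S_GAM := by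
  obtain ⟨C, hC, hG⟩ := gam_line (σ := 3 / 4) (by norm_num) (by norm_num)
  have hlp : 0 < Real.log Real.pi := Real.log_pos (by linarith [Real.pi_gt_three])
  obtain ⟨A, hA⟩ : ∃ A : ℝ, A = Real.exp (Real.log Real.pi) := ⟨_, rfl⟩
  have hA0 : 0 < A := by rw [hA]; exact Real.exp_pos _
  refine ⟨2 * C * A, by positivity, fun x => ?_⟩
  have hx := abs_nonneg x
  -- the Gamma factor
  have h1 : ‖Gamma (3 / 4 + (x / 2 : ℝ) * I)‖ ≤
      C * ((1 + |x|) ^ (1 / 4 : ℝ) * Real.exp (-(Real.pi / 4 * |x|))) := by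
    have h2 := hG (x / 2)
    have h3 : |x / 2| = |x| / 2 := by rw [abs_div, abs_of_pos (by norm_num : (0 : ℝ) < 2)]
    rw [h3] at h2
    push_cast at h2 ⊢
    refine h2.trans (mul_le_mul_of_nonneg_left ?_ hC.le)
    have h4 : (3 : ℝ) / 4 - 1 / 2 = 1 / 4 := by norm_num
    have h5 : Real.pi / 2 * (|x| / 2) = Real.pi / 4 * |x| := by ring
    rw [h4, h5]
    apply mul_le_mul_of_nonneg_right _ (Real.exp_pos _).le
    apply Real.rpow_le_rpow (by positivity) _ (by norm_num)
    linarith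
  obtain ⟨E, hE⟩ : ∃ E : ℝ, E = Real.exp (-(Real.pi / 4 * |x|)) := ⟨_, rfl⟩
  have hE0 : 0 < E := by rw [hE]; exact Real.exp_pos _
  obtain ⟨g, hg⟩ : ∃ g : ℂ, g = Gamma (3 / 4 + (x / 2 : ℝ) * I) := ⟨_, rfl⟩
  rw [← hg, ← hE] at h1
  rw [← hE]
  have hexp : ∀ w : ℂ, -1 ≤ w.re → ‖cexp (-(w / 2) * ((Real.log Real.pi : ℝ) : ℂ))‖ ≤ A := by
    intro w hw
    rw [Complex.norm_exp, re_mul_ofReal, hA]
    apply Real.exp_le_exp.2
    have h2 : (-(w / 2)).re = -(w.re / 2) := by
      rw [neg_re]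
      congr 1
      exact Complex.div_ofNat_re w 2
    rw [h2]
    have := mul_le_mul_of_nonneg_right (by linarith : -(w.re / 2) ≤ 1) hlp.le
    linarith
  constructor
  · have h2 : hh (3 / 2 + I * x) = (1 / 2 + x * I) * ((3 / 4 + (x / 2 : ℝ) * I) * g) *
        cexp (-((3 / 2 + I * x) / 2) * ((Real.log Real.pi : ℝ) : ℂ)) := by
      unfold hh
      rw [hg, ← Complex.Gamma_add_one]
      · congr 1
        congr 1
        · ring
        · congr 1
          push_cast
          ring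
      · intro h
        have := congrArg Complex.re h
        simp at this
    rw [h2, norm_mul, norm_mul, norm_mul]
    have h3 : ‖(1 / 2 + x * I : ℂ)‖ ≤ 1 + |x| := by
      refine (Complex.norm_le_abs_re_add_abs_im _).trans ?_
      have e1 : (1 / 2 + x * I : ℂ).re = 1 / 2 := by simp
      have e2 : (1 / 2 + x * I : ℂ).im = x := by simp
      have e3 : |(1 : ℝ) / 2| = 1 / 2 := abs_of_pos (by norm_num)
      rw [e1, e2, e3]
      linarith
    have h4 : ‖(3 / 4 + (x / 2 : ℝ) * I : ℂ)‖ ≤ 1 + |x| := by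
      refine (Complex.norm_le_abs_re_add_abs_im _).trans ?_
      have e1 : (3 / 4 + (x / 2 : ℝ) * I : ℂ).re = 3 / 4 := by simp
      have e2 : (3 / 4 + (x / 2 : ℝ) * I : ℂ).im = x / 2 := by simp
      have e3 : |(3 : ℝ) / 4| = 3 / 4 := abs_of_pos (by norm_num)
      have e4 : |x / 2| = |x| / 2 := by rw [abs_div, abs_of_pos (by norm_num : (0 : ℝ) < 2)]
      rw [e1, e2, e3, e4]
      linarith
    have h5 := hexp (3 / 2 + I * x) (by simp; norm_num)
    have h6 : (1 + |x|) ^ (9 / 4 : ℝ) = (1 + |x|) * (1 + |x|) * (1 + |x|) ^ (1 / 4 : ℝ) := by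
      have : (9 / 4 : ℝ) = 1 + 1 + 1 / 4 := by norm_num
      rw [this, Real.rpow_add (by positivity), Real.rpow_add (by positivity), Real.rpow_one]
    rw [h6]
    calc _ ≤ (1 + |x|) * ((1 + |x|) * (C * ((1 + |x|) ^ (1 / 4 : ℝ) * E))) * A := by
          apply mul_le_mul _ h5 (norm_nonneg _) (by positivity)
          apply mul_le_mul h3 _ (by positivity) (by positivity)
          exact mul_le_mul h4 h1 (norm_nonneg _) (by positivity)
      _ = C * A * ((1 + |x|) * (1 + |x|) * (1 + |x|) ^ (1 / 4 : ℝ)) * E := by ring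
      _ ≤ 2 * C * A * ((1 + |x|) * (1 + |x|) * (1 + |x|) ^ (1 / 4 : ℝ)) * E := by
          apply mul_le_mul_of_nonneg_right _ hE0.le
          apply mul_le_mul_of_nonneg_right _ (by positivity)
          apply mul_le_mul_of_nonneg_right _ hA0.le
          linarith
  · have h2 : hh (-(1 / 2) + I * x) = (-(3 / 2) + x * I) * g *
        cexp (-((-(1 / 2) + I * x) / 2) * ((Real.log Real.pi : ℝ) : ℂ)) := by
      unfold hh
      rw [hg]
      congr 1
      congr 1
      · ring
      · congr 1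
        push_cast
        ring
    rw [h2, norm_mul, norm_mul]
    have h3 : ‖(-(3 / 2) + x * I : ℂ)‖ ≤ 2 * (1 + |x|) := by
      refine (Complex.norm_le_abs_re_add_abs_im _).trans ?_
      have e1 : (-(3 / 2) + x * I : ℂ).re = -(3 / 2) := by simp
      have e2 : (-(3 / 2) + x * I : ℂ).im = x := by simp
      rw [e1, e2, abs_neg, abs_of_pos (by norm_num : (0 : ℝ) < 3 / 2)]
      linarith
    have h5 := hexp (-(1 / 2) + I * x) (by simp; norm_num)
    have h6 : (1 + |x|) ^ (5 / 4 : ℝ) = (1 + |x|) * (1 + |x|) ^ (1 / 4 : ℝ) := by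
      have : (5 / 4 : ℝ) = 1 + 1 / 4 := by norm_num
      rw [this, Real.rpow_add (by positivity), Real.rpow_one]
    rw [h6]
    calc _ ≤ (2 * (1 + |x|)) * (C * ((1 + |x|) ^ (1 / 4 : ℝ) * E)) * A := by
          apply mul_le_mul _ h5 (norm_nonneg _) (by positivity)
          exact mul_le_mul h3 h1 (norm_nonneg _) (by positivity)
      _ = 2 * C * A * ((1 + |x|) * (1 + |x|) ^ (1 / 4 : ℝ)) * E := by ring

end Pool.Agent.H161.RZ.GAM
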